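import Mathlib
import Pool.Agent.H24.FlipDefs
import Pool.Agent.H24.Flip2

namespace Pool.Agent.Results.MP_1aba1b_co.Exact
open Pool.Agent.H24.FlipDefs

theorem result (k : ℕ) (hk : 4 ≤ k) :
    (∀ q, 1 ≤ q → q ≤ k - 1 → (Bounded k q ↔ 3 * q < k)) ∧
    IsGreatest {q | 1 ≤ q ∧ q ≤ k - 1 ∧ Bounded k q} ((k - 1) / 3) := by
  refine ⟨fun q h1 h2 => Pool.Agent.H24.Flip2.main k q h1 (by omega), ⟨by omega, by omega, ?_⟩, ?_⟩
  · exact (Pool.Agent.H24.Flip2.main k _ (by omega) (by omega)).2 (by omega)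
  · rintro q ⟨h1, h2, h3⟩
    have := (Pool.Agent.H24.Flip2.main k q h1 (by omega)).1 h3
    omega

end Pool.Agent.Results.MP_1aba1b_co.Exact
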